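import Pool.Agent.Results.MP_3d7355_an.Septic

set_option autoImplicit false

namespace Pool.Agent.Results.MP_a60953_an.AllDim

open scoped ContDiff
open Pool.Agent.Results.MP_3d7355_an

/-- The derivative in the first variable t. -/
noncomputable def dt {k : ℕ} (u : ℝ → (Fin k → ℝ) → ℝ) (t : ℝ) (y : Fin k → ℝ) : ℝ :=
  deriv (fun τ => u τ y) t

/-- The Laplacian in all the variables (t, y_1, …, y_k). -/
noncomputable def lap {k : ℕ} (u : ℝ → (Fin k → ℝ) → ℝ) (t : ℝ) (y : Fin k → ℝ) : ℝ :=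
  deriv (deriv (fun τ => u τ y)) t +
    ∑ j, deriv (deriv (fun η => u t (Function.update y j η))) (y j)

/-- The open Euclidean unit ball. -/
def InBall {k : ℕ} (y : Fin k → ℝ) : Prop := ∑ j, y j ^ 2 < 1

theorem lap_eq {m : ℕ} (u : ℝ → ℝ → ℝ) (t : ℝ) (y : Fin (m + 1) → ℝ) :
    lap (fun t y => u t (y 0)) t y = Septic.lap u t (y 0) := by
  simp [lap, Septic.lap, Fin.sum_univ_succ, Function.update_of_ne (Fin.succ_ne_zero _).symm]

theorem ball {m : ℕ} {y : Fin (m + 1) → ℝ} (h : InBall y) : |y 0| < 1 := by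
  rw [InBall, Fin.sum_univ_succ] at h
  have : 0 ≤ ∑ j : Fin m, y j.succ ^ 2 := by positivity
  exact (sq_lt_one_iff_abs_lt_one _).1 (by linarith)

theorem result (n : ℕ) (hn : 2 ≤ n) : ∃ u v : ℝ → (Fin (n - 1) → ℝ) → ℝ,
    ContDiff ℝ ∞ (fun p : ℝ × (Fin (n - 1) → ℝ) => u p.1 p.2) ∧
    ContDiff ℝ ∞ (fun p : ℝ × (Fin (n - 1) → ℝ) => v p.1 p.2) ∧
    (∀ t y, 0 < t → t < 1 → InBall y → 0 < u t y ∧ 0 < v t y ∧ 0 < dt u t y) ∧
    (∀ y, InBall y → u 0 y = 0) ∧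
    (∀ t s y, 0 < t → t ≤ s → s < 1 → InBall y → u t y = v s y → lap u t y ≤ lap v s y) ∧
    dt u 0 0 = 0 ∧
    ∀ t y, 0 < t → t < 1 → InBall y → v t y < u t y := by
  obtain ⟨m, rfl⟩ : ∃ m, n = m + 2 := ⟨n - 2, by omega⟩
  obtain ⟨u, v, h1, h2, h3, h4, h5, h6, -, -, h7⟩ := Septic.result
  have c : ContDiff ℝ ∞ (fun p : ℝ × (Fin (m + 1) → ℝ) => (p.1, p.2 0)) := by fun_prop
  change ∃ u v : ℝ → (Fin (m + 1) → ℝ) → ℝ, _
  refine ⟨fun t y => u t (y 0), fun t y => v t (y 0), h1.comp c, h2.comp c,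
    fun t y a b e => h3 t _ ⟨a, b, ball e⟩, fun y e => h4 _ (ball e),
    fun t s y a b d e f => ?_, h6, fun t y a b e => h7 t _ ⟨a, b, ball e⟩⟩
  exact (lap_eq u t y).trans_le ((h5 t s _ a b d (ball e) f).trans_eq (lap_eq v s y).symm)

end Pool.Agent.Results.MP_a60953_an.AllDim
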